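import Mathlib

set_option autoImplicit false

namespace Pool.Agent.Results.MP_e33ffa_co.SevenOrEight

/-- A temporal graph with `T` snapshots `G 1, ..., G T` on the common vertex set `V`
(the values `G i` for other `i` are irrelevant, see `snap`). -/
structure TemporalGraph (V : Type) where
  /-- number of snapshots -/
  T : ℕ
  /-- the snapshots -/
  G : ℕ → SimpleGraph V

/-- The snapshot `G_i`, with the convention that `G_0` and `G_{T+1}` are edgeless. -/
def TemporalGraph.snap {V : Type} (𝒢 : TemporalGraph V) (i : ℕ) : SimpleGraph V where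
  Adj u v := (1 ≤ i ∧ i ≤ 𝒢.T) ∧ (𝒢.G i).Adj u v
  symm := ⟨fun _ _ h => ⟨h.1, h.2.symm⟩⟩
  loopless := ⟨fun _ h => (𝒢.G i).loopless.irrefl _ h.2⟩

theorem TemporalGraph.snap_eq {V : Type} (𝒢 : TemporalGraph V) (i : ℕ) (h1 : 1 ≤ i)
    (h2 : i ≤ 𝒢.T) : 𝒢.snap i = 𝒢.G i := by
  ext u v
  simp [TemporalGraph.snap, h1, h2]

/-- Two maps `c, c'` are compatible on a graph `H`. -/
def Compatible {V : Type} {k : ℕ} (H : SimpleGraph V) (c c' : V → Fin k) : Prop :=
  ∀ u v : V, H.Adj u v → c u ≠ c v ∧ c' u ≠ c' v ∧ c u ≠ c' v ∧ c' u ≠ c v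

/-- `c 1, ..., c T` is a temporal `k`-colouring of `𝒢`. -/
def TemporalGraph.IsColouring {V : Type} (𝒢 : TemporalGraph V) {k : ℕ}
    (c : ℕ → V → Fin k) : Prop :=
  (∀ j : ℕ, 1 ≤ j → j ≤ 𝒢.T → ∀ u v : V,
    (𝒢.snap (j - 1) ⊔ 𝒢.snap j ⊔ 𝒢.snap (j + 1)).Adj u v → c j u ≠ c j v) ∧
  (∀ j : ℕ, 1 ≤ j → j ≤ 𝒢.T - 1 →
    Compatible (𝒢.snap j ⊔ 𝒢.snap (j + 1)) (c j) (c (j + 1)))

/-- `𝒢` has a temporal `k`-colouring. -/
def TemporalGraph.Colourable {V : Type} (𝒢 : TemporalGraph V) (k : ℕ) : Prop :=
  ∃ c : ℕ → V → Fin k, 𝒢.IsColouring c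

/-- The temporal chromatic number: the least `k` for which a temporal `k`-colouring exists. -/
noncomputable def TemporalGraph.chromaticNumber {V : Type} (𝒢 : TemporalGraph V) : ℕ :=
  sInf {k : ℕ | 𝒢.Colourable k}

/-! ### The upper bound eight -/

theorem colourable_eight {V : Type} (𝒢 : TemporalGraph V)
    (h : ∀ i, 1 ≤ i → i ≤ 𝒢.T → (𝒢.G i).IsTree) : 𝒢.Colourable 8 := by
  classical
  have hb : ∀ i : ℕ, ∃ b : V → Fin 2, ∀ u v, (𝒢.snap i).Adj u v → b u ≠ b v := by
    intro i
    by_cases hi : 1 ≤ i ∧ i ≤ 𝒢.T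
    · obtain ⟨C⟩ := (h i hi.1 hi.2).colorable_two
      exact ⟨C, fun u v huv => C.valid huv.2⟩
    · exact ⟨fun _ => 0, fun u v huv => absurd huv.1 hi⟩
  choose b hb using hb
  -- colour at time `j`: the three bits `b (j-1), b j, b (j+1)` stored at positions mod 3
  let e : (Fin 2 × Fin 2 × Fin 2) ≃ Fin 8 :=
    (Fintype.equivFinOfCardEq (by decide))
  let pick : ℕ → ℕ → V → Fin 2 := fun j r v =>
    if (j - 1) % 3 = r then b (j - 1) v else if j % 3 = r then b j v else b (j + 1) v
  have hp0 : ∀ j v, 1 ≤ j → pick j ((j - 1) % 3) v = b (j - 1) v := by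
    intro j v _
    simp [pick]
  have hp1 : ∀ j v, 1 ≤ j → pick j (j % 3) v = b j v := by
    intro j v hj
    have : ¬ (j - 1) % 3 = j % 3 := by omega
    simp [pick, this]
  have hp2 : ∀ j v, 1 ≤ j → pick j ((j + 1) % 3) v = b (j + 1) v := by
    intro j v hj
    have h1 : ¬ (j - 1) % 3 = (j + 1) % 3 := by omega
    have h2 : ¬ j % 3 = (j + 1) % 3 := by omega
    simp [pick, h1, h2]
  let c : ℕ → V → Fin 8 := fun j v => e (pick j 0 v, pick j 1 v, pick j 2 v)
  have hc : ∀ j j' u v, c j u = c j' v → ∀ r, r < 3 → pick j r u = pick j' r v := by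
    intro j j' u v hcc r hr
    have := e.injective hcc
    simp only [Prod.mk.injEq] at this
    obtain ⟨h0, h1, h2⟩ := this
    interval_cases r
    · exact h0
    · exact h1
    · exact h2
  refine ⟨c, ?_, ?_⟩
  · intro j hj hjT u v huv heq
    have hh := hc j j u v heq
    rcases huv with (huv | huv) | huv
    · have := hh ((j - 1) % 3) (Nat.mod_lt _ (by norm_num))
      rw [hp0 j u hj, hp0 j v hj] at this
      exact hb _ _ _ huv this
    · have := hh (j % 3) (Nat.mod_lt _ (by norm_num))
      rw [hp1 j u hj, hp1 j v hj] at this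
      exact hb _ _ _ huv this
    · have := hh ((j + 1) % 3) (Nat.mod_lt _ (by norm_num))
      rw [hp2 j u hj, hp2 j v hj] at this
      exact hb _ _ _ huv this
  · intro j hj hjT u v huv
    have key : ∀ (s t : ℕ) (x y : V), (s = j ∨ s = j + 1) → (t = j ∨ t = j + 1) →
        (𝒢.snap j ⊔ 𝒢.snap (j + 1)).Adj x y → c s x ≠ c t y := by
      intro s t x y hs ht hxy heq
      have hh := hc s t x y heq
      have e1 : ∀ s x, (s = j ∨ s = j + 1) → pick s (j % 3) x = b j x := by
        intro s x hs
        rcases hs with rfl | rfl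
        · exact hp1 _ x hj
        · have := hp0 (j + 1) x (by omega)
          simpa using this
      have e2 : ∀ s x, (s = j ∨ s = j + 1) → pick s ((j + 1) % 3) x = b (j + 1) x := by
        intro s x hs
        rcases hs with rfl | rfl
        · exact hp2 _ x hj
        · exact hp1 (j + 1) x (by omega)
      rcases hxy with hxy | hxy
      · have := hh (j % 3) (Nat.mod_lt _ (by norm_num))
        rw [e1 s x hs, e1 t y ht] at this
        exact hb _ _ _ hxy this
      · have := hh ((j + 1) % 3) (Nat.mod_lt _ (by norm_num))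
        rw [e2 s x hs, e2 t y ht] at this
        exact hb _ _ _ hxy this
    exact ⟨key j j u v (Or.inl rfl) (Or.inl rfl) huv,
      key (j + 1) (j + 1) u v (Or.inr rfl) (Or.inr rfl) huv,
      key j (j + 1) u v (Or.inl rfl) (Or.inr rfl) huv,
      key (j + 1) j u v (Or.inr rfl) (Or.inl rfl) huv⟩

/-! ### The combinatorial core -/

/-- The constraints between the colour word `w` of a vertex and the colour word `p` of its
parent in the `i`-th tree (`1 ≤ i ≤ 12`). -/
def Cons (i : ℕ) (w p : ℕ → Fin 6) : Prop :=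
  w i ≠ p i ∧
  (2 ≤ i → w (i - 1) ≠ p (i - 1) ∧ w (i - 1) ≠ p i ∧ w i ≠ p (i - 1)) ∧
  (i ≤ 11 → w (i + 1) ≠ p (i + 1) ∧ w (i + 1) ≠ p i ∧ w i ≠ p (i + 1))

section core

variable (W : Set (ℕ → Fin 6)) (hne : W.Nonempty)
  (hL : ∀ p : ℕ → ℕ → Fin 6, (∀ i, p i ∈ W) → ∃ w ∈ W, ∀ i, 1 ≤ i → i ≤ 12 → Cons i w (p i))
  (hK : ∀ p ∈ W, ∀ j, 2 ≤ j → j ≤ 11 → ∃ w : Fin 6 → ℕ → Fin 6,
    (∀ a, w a ∈ W) ∧ (∀ a b, a ≠ b → w a j ≠ w b j) ∧
    ∀ a i, 1 ≤ i → i ≤ 12 → i + 1 ≠ j → i ≠ j → i ≠ j + 1 → Cons i (w a) p)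

include hne hK in
theorem pres (t : ℕ) (ht : 2 ≤ t) (ht' : t ≤ 11) (y : Fin 6) : ∃ w ∈ W, w t = y := by
  obtain ⟨p, hp⟩ := hne
  obtain ⟨w, hw, hinj, -⟩ := hK p hp t ht ht'
  have hi : Function.Injective (fun a => w a t) := by
    intro a b hab
    by_contra hne
    exact hinj a b hne hab
  obtain ⟨a, ha⟩ := (Finite.injective_iff_surjective.1 hi) y
  exact ⟨w a, hw a, ha⟩

include hne hK in
theorem outArc (j : ℕ) (hj : 4 ≤ j) (hj' : j ≤ 9) (y : Fin 6) :
    ∃ w ∈ W, w j = y ∧ w (j + 1) ≠ y := by
  obtain ⟨p, hp, hpy⟩ := pres W hne hK (j + 2) (by omega) (by omega) y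
  obtain ⟨w, hw, hinj, hc⟩ := hK p hp j (by omega) (by omega)
  have hi : Function.Injective (fun a => w a j) := by
    intro a b hab
    by_contra hne
    exact hinj a b hne hab
  obtain ⟨a, ha⟩ := (Finite.injective_iff_surjective.1 hi) y
  refine ⟨w a, hw a, ha, ?_⟩
  have := (hc a (j + 2) (by omega) (by omega) (by omega) (by omega) (by omega)).2.1 (by omega)
  have h2 := this.2.1
  simpa [hpy] using h2

include hne hK in
theorem inArc (j : ℕ) (hj : 4 ≤ j) (hj' : j ≤ 9) (y : Fin 6) :
    ∃ w ∈ W, w (j + 1) = y ∧ w j ≠ y := by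
  obtain ⟨p, hp, hpy⟩ := pres W hne hK (j - 1) (by omega) (by omega) y
  obtain ⟨w, hw, hinj, hc⟩ := hK p hp (j + 1) (by omega) (by omega)
  have hi : Function.Injective (fun a => w a (j + 1)) := by
    intro a b hab
    by_contra hne
    exact hinj a b hne hab
  obtain ⟨a, ha⟩ := (Finite.injective_iff_surjective.1 hi) y
  refine ⟨w a, hw a, ha, ?_⟩
  have := (hc a (j - 1) (by omega) (by omega) (by omega) (by omega) (by omega)).2.2 (by omega)
  have h2 := this.2.1
  have e : j - 1 + 1 = j := by omega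
  rw [e, hpy] at h2
  exact h2

include hL in
/-- No three words can block all six colours at time `j`. -/
theorem kill (j : ℕ) (hj : 4 ≤ j) (hj' : j ≤ 9) (u w v : ℕ → Fin 6) (hu : u ∈ W) (hw : w ∈ W)
    (hv : v ∈ W)
    (hall : ∀ x : Fin 6, x = u (j - 1) ∨ x = u j ∨ x = u (j + 1) ∨ x = w j ∨ x = w (j + 1) ∨
      x = v (j - 1)) : False := by
  obtain ⟨l, hl, hc⟩ := hL (fun i => if i = j then u else if i = j + 1 then w else v) (by
    intro i
    split_ifs
    · exact hu
    · exact hw
    · exact hv)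
  have c1 := hc j (by omega) (by omega)
  have c2 := hc (j + 1) (by omega) (by omega)
  have c3 := hc (j - 1) (by omega) (by omega)
  simp only [if_true, if_neg (show ¬ (j + 1 = j) by omega), if_neg (show ¬ (j - 1 = j) by omega),
    if_neg (show ¬ (j - 1 = j + 1) by omega)] at c1 c2 c3
  have d1 := c1.1
  have d2 := (c1.2.1 (by omega)).2.2
  have d3 := (c1.2.2 (by omega)).2.2
  have d4 := (c2.2.1 (by omega)).1
  have d5 := (c2.2.1 (by omega)).2.1
  have d6 := (c3.2.2 (by omega)).2.1
  have e : j - 1 + 1 = j := by omega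
  rw [e] at d6
  simp only [Nat.add_sub_cancel] at d4 d5
  rcases hall (l j) with h | h | h | h | h | h
  · exact d2 h
  · exact d1 h
  · exact d3 h
  · exact d4 h
  · exact d5 h
  · exact d6 h

include hne hL hK in
/-- Two words cannot have disjoint changes at the same step. -/
theorem claim1 (j : ℕ) (hj : 4 ≤ j) (hj' : j ≤ 9) (w1 w2 : ℕ → Fin 6) (h1 : w1 ∈ W) (h2 : w2 ∈ W)
    (hab : w1 j ≠ w1 (j + 1)) (hcd : w2 j ≠ w2 (j + 1)) (hac : w1 j ≠ w2 j)
    (had : w1 j ≠ w2 (j + 1)) (hbc : w1 (j + 1) ≠ w2 j) (hbd : w1 (j + 1) ≠ w2 (j + 1)) :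
    False := by
  classical
  set a := w1 j with ha
  set b := w1 (j + 1) with hb
  set c := w2 j with hc
  set d := w2 (j + 1) with hd
  have hcard : (({a, b, c, d} : Finset (Fin 6))ᶜ).card = 2 := by
    rw [Finset.card_compl, Finset.card_insert_of_notMem, Finset.card_insert_of_notMem,
      Finset.card_insert_of_notMem, Finset.card_singleton]
    · rfl
    · simpa using hcd
    · simp [hbc, hbd]
    · simp [hab, hac, had]
  obtain ⟨e, f, hef, hS⟩ := Finset.card_eq_two.1 hcard
  have hmem : ∀ x : Fin 6, x = a ∨ x = b ∨ x = c ∨ x = d ∨ x = e ∨ x = f := by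
    intro x
    by_cases hx : x ∈ ({a, b, c, d} : Finset (Fin 6))
    · simp only [Finset.mem_insert, Finset.mem_singleton] at hx
      tauto
    · have : x ∈ ({a, b, c, d} : Finset (Fin 6))ᶜ := Finset.mem_compl.2 hx
      rw [hS] at this
      simp only [Finset.mem_insert, Finset.mem_singleton] at this
      tauto
  have he : e ∉ ({a, b, c, d} : Finset (Fin 6)) := by
    rw [← Finset.mem_compl, hS]; simp
  have hf : f ∉ ({a, b, c, d} : Finset (Fin 6)) := by
    rw [← Finset.mem_compl, hS]; simp
  simp only [Finset.mem_insert, Finset.mem_singleton, not_or] at he hf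
  obtain ⟨we, hwe, hwe'⟩ := pres W hne hK (j - 1) (by omega) (by omega) e
  obtain ⟨wf, hwf, hwf'⟩ := pres W hne hK (j + 2) (by omega) (by omega) f
  obtain ⟨wg, hwg, hwg'⟩ := pres W hne hK (j - 2) (by omega) (by omega) f
  obtain ⟨u, hu, hcu⟩ := hL (fun i => if i = j then w1 else if i = j + 1 then w2 else
      if i = j - 1 then we else if i = j + 2 then wf else wg) (by
    intro i
    split_ifs
    · exact h1
    · exact h2
    · exact hwe
    · exact hwf
    · exact hwg)
  have c1 := hcu j (by omega) (by omega)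
  have c2 := hcu (j + 1) (by omega) (by omega)
  have c3 := hcu (j - 1) (by omega) (by omega)
  have c4 := hcu (j + 2) (by omega) (by omega)
  have c5 := hcu (j - 2) (by omega) (by omega)
  simp only [if_true, if_neg (show ¬ (j + 1 = j) by omega), if_neg (show ¬ (j - 1 = j) by omega),
    if_neg (show ¬ (j - 1 = j + 1) by omega), if_neg (show ¬ (j + 2 = j) by omega),
    if_neg (show ¬ (j + 2 = j + 1) by omega), if_neg (show ¬ (j + 2 = j - 1) by omega),
    if_neg (show ¬ (j - 2 = j) by omega), if_neg (show ¬ (j - 2 = j + 1) by omega),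
    if_neg (show ¬ (j - 2 = j - 1) by omega), if_neg (show ¬ (j - 2 = j + 2) by omega)]
    at c1 c2 c3 c4 c5
  have uja : u j ≠ a := c1.1
  have ujb : u j ≠ b := (c1.2.2 (by omega)).2.2
  have uj1b : u (j + 1) ≠ b := (c1.2.2 (by omega)).1
  have uj1a : u (j + 1) ≠ a := (c1.2.2 (by omega)).2.1
  have ujc : u j ≠ c := by
    have := (c2.2.1 (by omega)).1
    simpa using this
  have ujd : u j ≠ d := by
    have := (c2.2.1 (by omega)).2.1
    simpa using this
  have uj1d : u (j + 1) ≠ d := c2.1
  have uj1c : u (j + 1) ≠ c := by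
    have := (c2.2.1 (by omega)).2.2
    simpa using this
  have e1 : j - 1 + 1 = j := by omega
  have e2 : j - 2 + 1 = j - 1 := by omega
  have e3 : j + 2 - 1 = j + 1 := by omega
  have uje : u j ≠ e := by
    have := (c3.2.2 (by omega)).2.1
    rw [e1, hwe'] at this
    exact this
  have uj0e : u (j - 1) ≠ e := by
    have := c3.1
    rw [hwe'] at this
    exact this
  have uj1f : u (j + 1) ≠ f := by
    have := (c4.2.1 (by omega)).2.1
    rw [e3, hwf'] at this
    exact this
  have uj0f : u (j - 1) ≠ f := by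
    have := (c5.2.2 (by omega)).2.1
    rw [e2, hwg'] at this
    exact this
  have ujf : u j = f := by
    rcases hmem (u j) with h | h | h | h | h | h
    · exact absurd h uja
    · exact absurd h ujb
    · exact absurd h ujc
    · exact absurd h ujd
    · exact absurd h uje
    · exact h
  have uj1e : u (j + 1) = e := by
    rcases hmem (u (j + 1)) with h | h | h | h | h | h
    · exact absurd h uj1a
    · exact absurd h uj1b
    · exact absurd h uj1c
    · exact absurd h uj1d
    · exact h
    · exact absurd h uj1f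
  -- now `u (j-1)` is one of a, b, c, d
  have fin : ∀ (w : ℕ → Fin 6) (g : Fin 6), w ∈ W →
      (∀ x : Fin 6, x = u (j - 1) ∨ x = f ∨ x = e ∨ x = w j ∨ x = w (j + 1) ∨ x = g) → False := by
    intro w g hw hall
    obtain ⟨v, hv, hv'⟩ := pres W hne hK (j - 1) (by omega) (by omega) g
    refine kill W hL j hj hj' u w v hu hw hv ?_
    intro x
    rw [ujf, uj1e, hv']
    exact hall x
  rcases hmem (u (j - 1)) with h | h | h | h | h | h
  · refine fin w2 b h2 fun x => ?_
    rw [h]
    rcases hmem x with h | h | h | h | h | h <;> tauto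
  · refine fin w2 a h2 fun x => ?_
    rw [h]
    rcases hmem x with h | h | h | h | h | h <;> tauto
  · refine fin w1 d h1 fun x => ?_
    rw [h]
    rcases hmem x with h | h | h | h | h | h <;> tauto
  · refine fin w1 c h1 fun x => ?_
    rw [h]
    rcases hmem x with h | h | h | h | h | h <;> tauto
  · exact uj0e h
  · exact uj0f h

include hne hL hK in
/-- The changes at step `j` form a star. -/
theorem star (j : ℕ) (hj : 4 ≤ j) (hj' : j ≤ 9) :
    ∃ z : Fin 6, (∀ w ∈ W, w j ≠ w (j + 1) → w j = z ∨ w (j + 1) = z) ∧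
      ∀ y, y ≠ z → ∃ w ∈ W, w j = z ∧ w (j + 1) = y := by
  classical
  choose w hw hwy hwo using outArc W hne hK j hj hj'
  set o : Fin 6 → Fin 6 := fun y => w y (j + 1) with ho
  have hoy : ∀ y, o y ≠ y := hwo
  have H : ∀ y y', y ≠ y' → y = o y' ∨ o y = y' ∨ o y = o y' := by
    intro y y' hyy
    by_contra hcon
    push Not at hcon
    obtain ⟨g1, g2, g3⟩ := hcon
    refine claim1 W hne hL hK j hj hj' (w y) (w y') (hw y) (hw y') ?_ ?_ ?_ ?_ ?_ ?_
    · rw [hwy]; exact (hoy y).symm
    · rw [hwy]; exact (hoy y').symm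
    · rw [hwy, hwy]; exact hyy
    · rw [hwy]; exact g1
    · rw [hwy]; exact g2
    · exact g3
  -- a centre for the out-arcs
  have hz : ∃ z, ∀ y, y ≠ z → o y = z := by
    have h0 : ∀ y, y ≠ 0 → y ≠ o 0 → o y = 0 ∨ o y = o 0 := by
      intro y hy0 hym
      rcases H 0 y (Ne.symm hy0) with h | h | h
      · exact Or.inl h.symm
      · exact absurd h.symm hym
      · exact Or.inr h.symm
    have hsame : ∀ y1 y2, y1 ≠ 0 → y1 ≠ o 0 → y2 ≠ 0 → y2 ≠ o 0 → o y1 = 0 → o y2 = o 0 →
        False := by
      intro y1 y2 a1 a2 a3 a4 b1 b2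
      have hne12 : y1 ≠ y2 := by
        rintro rfl
        rw [b1] at b2
        exact hoy 0 b2.symm
      rcases H y1 y2 hne12 with h | h | h
      · rw [b2] at h; exact a2 h
      · rw [b1] at h; exact a3 h.symm
      · rw [b1, b2] at h; exact hoy 0 h.symm
    have hex : ∀ m : Fin 6, ∃ y1 y2 : Fin 6, y1 ≠ y2 ∧ y1 ≠ 0 ∧ y1 ≠ m ∧ y2 ≠ 0 ∧ y2 ≠ m := by
      decide
    obtain ⟨y1, y2, h12, g1, g2, g3, g4⟩ := hex (o 0)
    rcases h0 y1 g1 g2 with hy1 | hy1
    · -- all others map to 0
      have hall : ∀ y, y ≠ 0 → y ≠ o 0 → o y = 0 := by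
        intro y a1 a2
        rcases h0 y a1 a2 with h | h
        · exact h
        · exact (hsame y1 y g1 g2 a1 a2 hy1 h).elim
      refine ⟨0, fun y hy => ?_⟩
      by_cases hym : y = o 0
      · by_contra hcon
        have k1 : o y = y1 := by
          rcases H y y1 (by rw [hym]; exact g2.symm) with h | h | h
          · rw [hy1] at h; exact absurd h hy
          · exact h
          · rw [hy1] at h; exact absurd h hcon
        have hy2 := hall y2 g3 g4
        have k2 : o y = y2 := by
          rcases H y y2 (by rw [hym]; exact g4.symm) with h | h | h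
          · rw [hy2] at h; exact absurd h hy
          · exact h
          · rw [hy2] at h; exact absurd h hcon
        exact h12 (k1.symm.trans k2)
      · exact hall y hy hym
    · have hall : ∀ y, y ≠ 0 → y ≠ o 0 → o y = o 0 := by
        intro y a1 a2
        rcases h0 y a1 a2 with h | h
        · exact (hsame y y1 a1 a2 g1 g2 h hy1).elim
        · exact h
      refine ⟨o 0, fun y hy => ?_⟩
      by_cases hy0 : y = 0
      · rw [hy0]
      · exact hall y hy0 hy
  obtain ⟨z, hz⟩ := hz
  have hstar : ∀ v ∈ W, v j ≠ v (j + 1) → v j = z ∨ v (j + 1) = z := by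
    intro v hv hch
    by_contra hcon
    push Not at hcon
    have hex : ∀ a b c : Fin 6, ∃ y : Fin 6, y ≠ a ∧ y ≠ b ∧ y ≠ c := by decide
    obtain ⟨y, k1, k2, k3⟩ := hex (v j) (v (j + 1)) z
    have hoyz := hz y k3
    refine claim1 W hne hL hK j hj hj' v (w y) hv (hw y) hch ?_ ?_ ?_ ?_ ?_
    · rw [hwy]; exact (hoy y).symm
    · rw [hwy]; exact k1.symm
    · change v j ≠ o y
      rw [hoyz]; exact hcon.1
    · rw [hwy]; exact k2.symm
    · change v (j + 1) ≠ o y
      rw [hoyz]; exact hcon.2
  refine ⟨z, hstar, fun y hy => ?_⟩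
  obtain ⟨v, hv, hv1, hv2⟩ := inArc W hne hK j hj hj' y
  refine ⟨v, hv, ?_, hv1⟩
  rcases hstar v hv (by rw [hv1]; exact hv2) with h | h
  · exact h
  · rw [hv1] at h; exact absurd h hy

include hne hL hK in
theorem core : False := by
  classical
  have hs : ∀ a : Fin 6, ∃ z : Fin 6, (∀ w ∈ W, w (4 + a.val) ≠ w (4 + a.val + 1) →
      w (4 + a.val) = z ∨ w (4 + a.val + 1) = z) ∧
      ∃ w ∈ W, w (4 + a.val) = z ∧ (a = z ∨ w (4 + a.val + 1) = a) := by
    intro a
    obtain ⟨z, h1, h2⟩ := star W hne hL hK (4 + a.val) (by omega) (by omega)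
    refine ⟨z, h1, ?_⟩
    by_cases ha : a = z
    · obtain ⟨w, hw, hwz⟩ := pres W hne hK (4 + a.val) (by omega) (by omega) z
      exact ⟨w, hw, hwz, Or.inl ha⟩
    · obtain ⟨w, hw, hwz, hwa⟩ := h2 a ha
      exact ⟨w, hw, hwz, Or.inr hwa⟩
  choose z hz p hp hpz hpa using hs
  obtain ⟨v, hv, hc⟩ := hL (fun i => if h : 4 ≤ i ∧ i < 10 then p ⟨i - 4, by omega⟩ else p 0) (by
    intro i
    split_ifs
    · exact hp _
    · exact hp _)
  have hcc : ∀ a : Fin 6, Cons (4 + a.val) v (p a) := by
    intro a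
    have := hc (4 + a.val) (by omega) (by omega)
    have hlt : 4 ≤ 4 + a.val ∧ 4 + a.val < 10 := by omega
    simp only [dif_pos hlt] at this
    have e : (⟨4 + a.val - 4, by omega⟩ : Fin 6) = a := by
      apply Fin.ext
      simp
    rw [e] at this
    exact this
  have h1 : ∀ a : Fin 6, v (4 + a.val) ≠ z a := by
    intro a
    have := (hcc a).1
    rw [hpz a] at this
    exact this
  have h2 : ∀ a : Fin 6, v (4 + a.val + 1) ≠ z a := by
    intro a
    have := ((hcc a).2.2 (by omega)).2.1
    rw [hpz a] at this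
    exact this
  have h3 : ∀ a : Fin 6, v (4 + a.val) = v (4 + a.val + 1) := by
    intro a
    by_contra hcon
    rcases hz a v hv hcon with h | h
    · exact h1 a h
    · exact h2 a h
  have h4 : ∀ n : ℕ, n ≤ 6 → v (4 + n) = v 4 := by
    intro n
    induction n with
    | zero => intro _; rfl
    | succ m ih =>
      intro hm
      have := h3 ⟨m, by omega⟩
      simp only at this
      rw [← ih (by omega), this]
      rfl
  have h5 := h4 (v 4).val (by omega)
  rcases hpa (v 4) with h | h
  · exact h1 (v 4) (by rw [h5]; exact h)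
  · have := ((hcc (v 4)).2.2 (by omega)).2.2
    rw [h, h5] at this
    exact this rfl

end core

/-! ### Trees given by parent functions -/

/-- A finite rooted vertex set with one parent function per tree. -/
structure PT where
  V : Type
  fin : Fintype V
  dec : DecidableEq V
  root : V
  par : ℕ → V → V
  rk : ℕ → V → ℕ
  h : ∀ i v, v ≠ root → rk i (par i v) < rk i v

/-- The `i`-th tree. -/
def PT.graph (P : PT) (i : ℕ) : SimpleGraph P.V :=
  SimpleGraph.fromRel fun u v => u ≠ P.root ∧ P.par i u = v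

theorem PT.graph_isTree (P : PT) (i : ℕ) : (P.graph i).IsTree := by
  classical
  have := P.fin
  have hconn : (P.graph i).Connected := by
    have hr : ∀ n : ℕ, ∀ v, P.rk i v = n → (P.graph i).Reachable P.root v := by
      intro n
      induction n using Nat.strong_induction_on with
      | _ n ih =>
        intro v hv
        by_cases hvr : v = P.root
        · rw [hvr]
        · have hlt := P.h i v hvr
          have h1 := ih _ (by rw [← hv]; exact hlt) (P.par i v) rfl
          refine h1.trans (SimpleGraph.Adj.reachable ?_)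
          refine (SimpleGraph.fromRel_adj _ _ _).2 ⟨?_, Or.inr ⟨hvr, rfl⟩⟩
          intro heq
          rw [heq] at hlt
          exact lt_irrefl _ hlt
    have : Nonempty P.V := ⟨P.root⟩
    exact (SimpleGraph.connected_iff_exists_forall_reachable _).2 ⟨P.root, fun v => hr _ v rfl⟩
  rw [SimpleGraph.isTree_iff_connected_and_card]
  refine ⟨hconn, le_antisymm ?_ hconn.card_vert_le_card_edgeSet_add_one⟩
  -- the number of edges is at most the number of non-root vertices
  have hsub : (P.graph i).edgeSet ⊆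
      (fun v => s(v, P.par i v)) '' {v : P.V | v ≠ P.root} := by
    intro e
    induction e using Sym2.ind with
    | _ u v =>
      intro he
      rw [SimpleGraph.mem_edgeSet] at he
      obtain ⟨-, he | he⟩ := (SimpleGraph.fromRel_adj _ _ _).1 he
      · exact ⟨u, he.1, by simp only [he.2]⟩
      · exact ⟨v, he.1, by simp only [he.2]; exact Sym2.eq_swap⟩
  have h1 : Nat.card (P.graph i).edgeSet ≤ Nat.card {v : P.V | v ≠ P.root} := by
    refine (Nat.card_mono (Set.toFinite _) hsub).trans ?_
    exact Nat.card_image_le (Set.toFinite _)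
  have h2 : Nat.card {v : P.V | v ≠ P.root} + 1 = Nat.card P.V := by
    have : ({v : P.V | v ≠ P.root} : Set P.V) = {P.root}ᶜ := by
      ext v; simp
    rw [this, Nat.card_eq_fintype_card, Nat.card_eq_fintype_card, Fintype.card_compl_set]
    simp only [Fintype.card_unique]
    have : 0 < Fintype.card P.V := Fintype.card_pos_iff.2 ⟨P.root⟩
    omega
  omega

/-- `c` satisfies all constraints between a vertex and its parents. -/
def PT.Good (P : PT) (c : ℕ → P.V → Fin 6) : Prop :=
  ∀ v, v ≠ P.root → ∀ i, 1 ≤ i → i ≤ 12 → Cons i (fun j => c j v) (fun j => c j (P.par i v))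

/-- The temporal graph with twelve snapshots defined by `P`. -/
def PT.toTemporal (P : PT) : TemporalGraph P.V := ⟨12, P.graph⟩

theorem PT.good_of_isColouring (P : PT) (c : ℕ → P.V → Fin 6)
    (hc : P.toTemporal.IsColouring c) : P.Good c := by
  classical
  intro v hv i hi1 hi12
  have hadj : (P.graph i).Adj v (P.par i v) := by
    refine (SimpleGraph.fromRel_adj _ _ _).2 ⟨?_, Or.inl ⟨hv, rfl⟩⟩
    intro heq
    have := P.h i v hv
    rw [← heq] at this
    exact lt_irrefl _ this
  have hsnap : P.toTemporal.snap i = P.graph i := P.toTemporal.snap_eq i hi1 hi12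
  obtain ⟨h1, h2⟩ := hc
  have hT : P.toTemporal.T = 12 := rfl
  refine ⟨?_, ?_, ?_⟩
  · refine h1 i hi1 (by rw [hT]; exact hi12) v (P.par i v) (Or.inl (Or.inr ?_))
    rw [hsnap]; exact hadj
  · intro hi2
    have e : i - 1 + 1 = i := by omega
    have hcomp := h2 (i - 1) (by omega) (by rw [hT]; omega) v (P.par i v) (Or.inr (by
      rw [e, hsnap]; exact hadj))
    rw [e] at hcomp
    exact ⟨hcomp.1, hcomp.2.2.1, hcomp.2.2.2⟩
  · intro hi11
    have hcomp := h2 i hi1 (by rw [hT]; omega) v (P.par i v) (Or.inl (by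
      rw [hsnap]; exact hadj))
    exact ⟨hcomp.2.1, hcomp.2.2.2, hcomp.2.2.1⟩

/-! ### The extension step -/

/-- The predecessor in the `d`-th Hamilton path of the `K_6`-block. -/
def pred : Fin 3 → Fin 6 → Option (Fin 6) :=
  ![![none, some 5, some 4, some 2, some 1, some 0],
    ![some 1, none, some 0, some 5, some 3, some 2],
    ![some 3, some 2, none, some 1, some 0, some 4]]

/-- The position in the `d`-th Hamilton path of the `K_6`-block. -/
def pos : Fin 3 → Fin 6 → ℕ :=
  ![![0, 2, 4, 5, 3, 1],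
    ![1, 0, 2, 4, 5, 3],
    ![3, 1, 0, 2, 4, 5]]

theorem pred_pos : ∀ (d : Fin 3) (a b : Fin 6), pred d a = some b → pos d b < pos d a := by
  decide

theorem pred_cover : ∀ a b : Fin 6, a ≠ b → ∃ d : Fin 3, pred d a = some b ∨ pred d b = some a := by
  decide

/-- New vertices: a leaf for every choice of parents, and a block of six vertices for every
time `j` and every old vertex `p`. -/
abbrev NewV (V : Type) : Type := (Fin 13 → V) ⊕ (Fin 13 × V × Fin 6)

/-- Parents of the new vertices. -/
def newPar {V : Type} (i : ℕ) : NewV V → V ⊕ NewV V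
  | Sum.inl q => Sum.inl (q (Fin.ofNat 13 i))
  | Sum.inr (j, p, a) =>
    if h : i + 1 - j.val < 3 ∧ j.val ≤ i + 1 then
      match pred ⟨i + 1 - j.val, h.1⟩ a with
      | none => Sum.inl p
      | some b => Sum.inr (Sum.inr (j, p, b))
    else Sum.inl p

/-- Ranks of the new vertices. -/
def newRk {V : Type} (r : ℕ → V → ℕ) (i : ℕ) : NewV V → ℕ
  | Sum.inl q => r i (q (Fin.ofNat 13 i)) + 1
  | Sum.inr (j, p, a) =>
    if h : i + 1 - j.val < 3 ∧ j.val ≤ i + 1 then r i p + 1 + pos ⟨i + 1 - j.val, h.1⟩ a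
    else r i p + 1

/-- The extension of `P` by all gadgets. -/
def PT.ext (P : PT) : PT where
  V := P.V ⊕ NewV P.V
  fin := by
    haveI := P.fin
    haveI := P.dec
    exact inferInstance
  dec := by
    haveI := P.fin
    haveI := P.dec
    exact inferInstance
  root := Sum.inl P.root
  par := fun i v => match v with
    | Sum.inl v => Sum.inl (P.par i v)
    | Sum.inr x => newPar i x
  rk := fun i v => match v with
    | Sum.inl v => P.rk i v
    | Sum.inr x => newRk P.rk i x
  h := by
    intro i v hv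
    rcases v with v | q | ⟨j, p, a⟩
    · exact P.h i v (fun h => hv (by rw [h]))
    · simp [newPar, newRk]
    · by_cases h : i + 1 - j.val < 3 ∧ j.val ≤ i + 1
      · cases hpr : pred ⟨i + 1 - j.val, h.1⟩ a with
        | none =>
          simp only [newPar, newRk, dif_pos h, hpr]
          omega
        | some b =>
          have := pred_pos _ _ _ hpr
          simp only [newPar, newRk, dif_pos h, hpr]
          omega
      · simp only [newPar, newRk, dif_neg h]
        omega

/-- The colour word of a vertex. -/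
def word {V : Type} (c : ℕ → V → Fin 6) (v : V) : Fin 13 → Fin 6 := fun j => c j v

theorem cons_congr {i : ℕ} (hi : i ≤ 12) {w w' p p' : ℕ → Fin 6}
    (hw : ∀ j, j ≤ 12 → w j = w' j) (hp : ∀ j, j ≤ 12 → p j = p' j) (h : Cons i w p) :
    Cons i w' p' := by
  obtain ⟨h1, h2, h3⟩ := h
  refine ⟨?_, ?_, ?_⟩
  · rw [← hw i hi, ← hp i hi]; exact h1
  · intro hi2
    rw [← hw i hi, ← hp i hi, ← hw (i - 1) (by omega), ← hp (i - 1) (by omega)]
    exact h2 hi2
  · intro hi2
    rw [← hw i hi, ← hp i hi, ← hw (i + 1) (by omega), ← hp (i + 1) (by omega)]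
    exact h3 hi2

/-- In the extension, some new vertex has a colour word that did not occur before. -/
theorem exists_new_word (P : PT) (c : ℕ → P.ext.V → Fin 6) (hc : P.ext.Good c) :
    ∃ x : P.ext.V, ∀ v : P.V, word c x ≠ word c (Sum.inl v) := by
  by_contra hcon
  push Not at hcon
  choose old hold using hcon
  have hold' : ∀ (x : P.ext.V) (j : ℕ), j ≤ 12 → c j x = c j (Sum.inl (old x)) := by
    intro x j hj
    have := congrFun (hold x) ⟨j, by omega⟩
    exact this
  let wd : P.ext.V → ℕ → Fin 6 := fun x j => c j x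
  refine core (Set.range fun v : P.V => wd (Sum.inl v)) ⟨_, P.root, rfl⟩ ?_ ?_
  · intro p hp
    choose q hq using hp
    let x : P.ext.V := Sum.inr (Sum.inl fun i => q i)
    refine ⟨_, ⟨old x, rfl⟩, fun i hi1 hi12 => ?_⟩
    have hx : x ≠ P.ext.root := by
      intro h
      exact Sum.inr_ne_inl h
    have h1 := hc x hx i hi1 hi12
    have hpar : P.ext.par i x = Sum.inl (q i) := by
      change Sum.inl (q ((Fin.ofNat 13 i : Fin 13) : ℕ)) = _
      have : ((Fin.ofNat 13 i : Fin 13) : ℕ) = i := by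
        simp [Fin.ofNat, Nat.mod_eq_of_lt (show i < 13 by omega)]
      rw [this]
    rw [hpar] at h1
    refine cons_congr hi12 (fun j hj => hold' x j hj) (fun j _ => ?_) h1
    exact congrFun (hq i) j
  · rintro _ ⟨p, rfl⟩ j hj hj'
    let x : Fin 6 → P.ext.V := fun a => Sum.inr (Sum.inr (⟨j, by omega⟩, p, a))
    have hx : ∀ a, x a ≠ P.ext.root := by
      intro a h
      exact Sum.inr_ne_inl h
    refine ⟨fun a => wd (Sum.inl (old (x a))), fun a => ⟨_, rfl⟩, ?_, ?_⟩
    · -- all colours at time `j` are distinct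
      have key : ∀ a b : Fin 6, ∀ d : Fin 3, pred d a = some b → c j (x a) ≠ c j (x b) := by
        intro a b d hd
        -- the tree `i = j - 1 + d`
        have hi : j - 1 + d.val + 1 - j < 3 ∧ j ≤ j - 1 + d.val + 1 := by omega
        have hde : (⟨j - 1 + d.val + 1 - j, hi.1⟩ : Fin 3) = d := by
          apply Fin.ext
          simp only
          omega
        have hpar : P.ext.par (j - 1 + d.val) (x a) = x b := by
          change newPar (j - 1 + d.val) (Sum.inr (⟨j, by omega⟩, p, a)) = _
          simp only [newPar, dif_pos hi, hde, hd]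
          rfl
        have h1 := hc (x a) (hx a) (j - 1 + d.val) (by omega) (by omega)
        rw [hpar] at h1
        have hd3 := d.isLt
        have hcase : d.val = 0 ∨ d.val = 1 ∨ d.val = 2 := by omega
        rcases hcase with h0 | h0 | h0
        · have h2 := (h1.2.2 (by omega)).1
          have e : j - 1 + d.val + 1 = j := by omega
          rw [e] at h2
          exact h2
        · have h2 := h1.1
          have e : j - 1 + d.val = j := by omega
          rw [e] at h2
          exact h2
        · have h2 := (h1.2.1 (by omega)).1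
          have e : j - 1 + d.val - 1 = j := by omega
          rw [e] at h2
          exact h2
      intro a b hab
      change c j (Sum.inl (old (x a))) ≠ c j (Sum.inl (old (x b)))
      rw [← hold' (x a) j (by omega), ← hold' (x b) j (by omega)]
      obtain ⟨d, hd | hd⟩ := pred_cover a b hab
      · exact key a b d hd
      · exact (key b a d hd).symm
    · intro a i hi1 hi12 h1 h2 h3
      have hcs := hc (x a) (hx a) i hi1 hi12
      have hpar : P.ext.par i (x a) = Sum.inl p := by
        change newPar i (Sum.inr (⟨j, by omega⟩, p, a)) = _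
        have hn : ¬ (i + 1 - j < 3 ∧ j ≤ i + 1) := by omega
        simp only [newPar, dif_neg hn]
      rw [hpar] at hcs
      exact cons_congr hi12 (fun t ht => hold' (x a) t ht) (fun _ _ => rfl) hcs

/-- Some temporal graph of the class has, in every colouring, at least `n` colour words. -/
theorem many_words (n : ℕ) : ∃ P : PT, ∀ c : ℕ → P.V → Fin 6, P.Good c →
    n ≤ Nat.card (Set.range (word c)) := by
  induction n with
  | zero =>
    refine ⟨⟨Unit, inferInstance, inferInstance, (), fun _ v => v, fun _ _ => 0, ?_⟩, ?_⟩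
    · intro i v hv
      exact absurd rfl hv
    · intro c _
      exact Nat.zero_le _
  | succ n ih =>
    obtain ⟨P, hP⟩ := ih
    refine ⟨P.ext, fun c hc => ?_⟩
    let c' : ℕ → P.V → Fin 6 := fun j v => c j (Sum.inl v)
    have hc' : P.Good c' := by
      intro v hv i hi1 hi12
      exact hc (Sum.inl v) (fun h => hv (Sum.inl.inj h)) i hi1 hi12
    obtain ⟨x, hx⟩ := exists_new_word P c hc
    have hss : Set.range (word c') ⊂ Set.range (word c) := by
      refine Set.ssubset_iff_subset_ne.2 ⟨?_, ?_⟩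
      · rintro _ ⟨v, rfl⟩
        exact ⟨Sum.inl v, rfl⟩
      · intro heq
        have : word c x ∈ Set.range (word c') := by
          rw [heq]; exact ⟨x, rfl⟩
        obtain ⟨v, hv⟩ := this
        exact hx v hv.symm
    have h1 := hP c' hc'
    have h2 : (Set.range (word c')).ncard < (Set.range (word c)).ncard :=
      Set.ncard_lt_ncard hss (Set.toFinite _)
    rw [Set.ncard, Set.ncard] at h2
    rw [Nat.card_coe_set_eq] at h1 ⊢
    rw [Set.ncard] at h1 ⊢
    omega

theorem exists_not_good : ∃ P : PT, ∀ c : ℕ → P.V → Fin 6, ¬ P.Good c := by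
  obtain ⟨P, hP⟩ := many_words (Nat.card (Fin 13 → Fin 6) + 1)
  refine ⟨P, fun c hc => ?_⟩
  have h1 := hP c hc
  have h2 : Nat.card (Set.range (word c)) ≤ Nat.card (Fin 13 → Fin 6) :=
    Nat.card_le_card_of_injective _ Subtype.val_injective
  omega

theorem TemporalGraph.Colourable.mono {V : Type} {𝒢 : TemporalGraph V} {k l : ℕ} (hkl : k ≤ l)
    (h : 𝒢.Colourable k) : 𝒢.Colourable l := by
  obtain ⟨c, h1, h2⟩ := h
  refine ⟨fun j v => Fin.castLE hkl (c j v), ?_, ?_⟩
  · intro j hj hj' u v huv heq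
    exact h1 j hj hj' u v huv (Fin.castLE_injective hkl heq)
  · intro j hj hj' u v huv
    obtain ⟨a1, a2, a3, a4⟩ := h2 j hj hj' u v huv
    exact ⟨fun h => a1 (Fin.castLE_injective hkl h), fun h => a2 (Fin.castLE_injective hkl h),
      fun h => a3 (Fin.castLE_injective hkl h), fun h => a4 (Fin.castLE_injective hkl h)⟩

/-- There is a temporal graph with at least one snapshot, on a finite vertex set, all of whose
snapshots are trees, and whose temporal chromatic number is 7 or 8. -/
theorem result : ∃ (V : Type) (_ : Fintype V) (𝒢 : TemporalGraph V), 1 ≤ 𝒢.T ∧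
    (∀ i, 1 ≤ i → i ≤ 𝒢.T → (𝒢.G i).IsTree) ∧
    (𝒢.chromaticNumber = 7 ∨ 𝒢.chromaticNumber = 8) := by
  obtain ⟨P, hP⟩ := exists_not_good
  have htree : ∀ i, 1 ≤ i → i ≤ P.toTemporal.T → (P.toTemporal.G i).IsTree :=
    fun i _ _ => P.graph_isTree i
  refine ⟨P.V, P.fin, P.toTemporal, by change 1 ≤ 12; norm_num, htree, ?_⟩
  have h8 : P.toTemporal.Colourable 8 := colourable_eight _ htree
  have hle : P.toTemporal.chromaticNumber ≤ 8 := Nat.sInf_le h8
  have hmem : P.toTemporal.Colourable P.toTemporal.chromaticNumber :=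
    Nat.sInf_mem (s := {k | P.toTemporal.Colourable k}) ⟨8, h8⟩
  have hge : 7 ≤ P.toTemporal.chromaticNumber := by
    by_contra hlt
    push Not at hlt
    obtain ⟨c, hc⟩ := hmem.mono (show P.toTemporal.chromaticNumber ≤ 6 by omega)
    exact hP c (P.good_of_isColouring c hc)
  omega

end Pool.Agent.Results.MP_e33ffa_co.SevenOrEight
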